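import Pool.Agent.Helper35.CWS.StA

/-!
# Project CWS (MP_a45945_gt): module IND, attaching finitely many cells
-/

set_option autoImplicit false

namespace Pool.Agent.Helper56.CWS

open Set Topology Metric Pool.Agent.Helper35.CWS

/-- a frontier point of a cell which lies in an open cell lies in one of smaller dimension -/
private theorem dim_lt {Y : Type} [TopologicalSpace Y] [T2Space Y] {D : Set Y} [RelCWComplex (univ : Set Y) D]
    {n m : ℕ} {i : RelCWComplex.cell (univ : Set Y) n} {j : RelCWComplex.cell (univ : Set Y) m} {y : Y}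
    (hy : y ∈ RelCWComplex.cellFrontier n i) (hy' : y ∈ RelCWComplex.openCell m j) : m < n := by
  by_contra h
  have h1 : y ∈ (RelCWComplex.skeletonLT (univ : Set Y) (n : ℕ∞) : Set Y) :=
    RelCWComplex.cellFrontier_subset_skeletonLT n i hy
  have h2 : ((n : ℕ∞)) ≤ (m : ℕ∞) := by
    exact_mod_cast not_lt.1 h
  exact (Set.disjoint_left.1 (RelCWComplex.disjoint_skeletonLT_openCell (j := j) h2)) h1 hy'

private theorem aux (hEXT : StEXT) {Y : Type} [TopologicalSpace Y] [T2Space Y] {D : Set Y} [RelCWComplex (univ : Set Y) D]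
    {V : Set Y} {F : Finset (Σ n, RelCWComplex.cell (univ : Set Y) n)} {ε : ℝ} (hV : IsOpen V)
    (hcov : ∀ y ∈ V, ∃ c ∈ F, y ∈ RelCWComplex.openCell c.1 c.2) :
    ∀ (k : ℕ) (P : Finset (Σ n, RelCWComplex.cell (univ : Set Y) n)) (A W : Set Y) (Ψ : ℝ → Y → Y),
      ((F : Set (Σ n, RelCWComplex.cell (univ : Set Y) n)) \ P).ncard = k → P ⊆ F → IsClosed A → IsOpen W → W ⊆ V →
      (∀ c ∈ P, RelCWComplex.openCell c.1 c.2 ⊆ A) →
      (∀ c ∈ F, c ∉ P → Disjoint (RelCWComplex.openCell c.1 c.2) A) → SF A (A ∩ W) ε Ψ →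
      ∃ (W' : Set Y) (Φ : ℝ → Y → Y), IsOpen W' ∧ A ∩ W ⊆ W' ∧ SF univ W' ε Φ ∧
        ∀ y ∈ A ∩ W, ∀ s ∈ Icc (0 : ℝ) ε, Φ s y = Ψ s y := by
  classical
  intro k
  induction k with
  | zero =>
    intro P A W Ψ hk _ hA hW hWV hPA _ hSF
    have h0 : ((F : Set (Σ n, RelCWComplex.cell (univ : Set Y) n)) \ P) = ∅ :=
      (Set.ncard_eq_zero (F.finite_toSet.subset sdiff_subset)).1 hk
    have hFP : ∀ c ∈ F, c ∈ P := by
      intro c hc
      by_contra h
      have : c ∈ ((F : Set (Σ n, RelCWComplex.cell (univ : Set Y) n)) \ P) := ⟨hc, h⟩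
      rw [h0] at this
      exact this
    have hWA : W ⊆ A := by
      intro y hy
      obtain ⟨c, hc, hyc⟩ := hcov y (hWV hy)
      exact hPA c (hFP c hc) hyc
    have hAW : A ∩ W = W := inter_eq_right.2 hWA
    rw [hAW] at hSF
    refine ⟨W, Ψ, hW, inter_subset_right, ⟨subset_univ _, hSF.pos, hSF.cont, fun _ _ _ _ => mem_univ _, hSF.zero,
      hSF.add⟩, fun _ _ _ _ => rfl⟩
  | succ k ih =>
    intro P A W Ψ hk hPF hA hW hWV hPA hdis hSF
    have hne : (F \ P).Nonempty := by
      rw [Finset.nonempty_iff_ne_empty]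
      intro h
      have h1 : ((F : Set (Σ n, RelCWComplex.cell (univ : Set Y) n)) \ P) = ∅ := by
        rw [← Finset.coe_sdiff, h, Finset.coe_empty]
      rw [h1, Set.ncard_empty] at hk
      omega
    obtain ⟨c, hc, hmin⟩ := Finset.exists_min_image (F \ P) (fun c => c.1) hne
    rw [Finset.mem_sdiff] at hc
    have hmin' : ∀ c' ∈ F, c'.1 < c.1 → c' ∈ P := by
      intro c' hc' hlt
      by_contra h
      have := hmin c' (Finset.mem_sdiff.2 ⟨hc', h⟩)
      omega
    have hcc : IsClosed (RelCWComplex.closedCell c.1 c.2) := RelCWComplex.isClosed_closedCell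
    obtain ⟨W', Ψ', hW', hW'V, hAW, hSF', hag⟩ := hEXT Y c.1 A V W (RelCWComplex.map c.1 c.2) ε Ψ hA hV hW hWV
      (RelCWComplex.continuousOn c.1 c.2)
      (by
        have h := (RelCWComplex.map (C := (univ : Set Y)) c.1 c.2).injOn
        rwa [RelCWComplex.source_eq] at h)
      (fun z hz h => Set.disjoint_left.1 (hdis c hc.1 hc.2) (mem_image_of_mem _ hz) h)
      (by
        intro z hz w hw h
        have h1 : RelCWComplex.map c.1 c.2 z ∈ RelCWComplex.openCell c.1 c.2 := mem_image_of_mem _ hz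
        have h2 : RelCWComplex.map c.1 c.2 z ∈ RelCWComplex.cellFrontier c.1 c.2 := by
          rw [h]
          exact mem_image_of_mem _ hw
        exact lt_irrefl _ (dim_lt h2 h1))
      (by
        intro w hw hwV
        obtain ⟨c', hc', hwc'⟩ := hcov _ hwV
        exact hPA c' (hmin' c' hc' (dim_lt (mem_image_of_mem _ hw) hwc')) hwc')
      hSF
    have hcard : ((F : Set (Σ n, RelCWComplex.cell (univ : Set Y) n)) \ (insert c P : Finset _)).ncard = k := by
      have h1 : ((F : Set (Σ n, RelCWComplex.cell (univ : Set Y) n)) \ (insert c P : Finset _)) =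
          ((F : Set (Σ n, RelCWComplex.cell (univ : Set Y) n)) \ P) \ {c} := by
        ext x
        simp only [Finset.coe_insert, mem_sdiff, mem_insert_iff, mem_singleton_iff, Finset.mem_coe]
        tauto
      have h2 : c ∈ ((F : Set (Σ n, RelCWComplex.cell (univ : Set Y) n)) \ P) := ⟨hc.1, hc.2⟩
      rw [h1, Set.ncard_sdiff_singleton_of_mem h2, hk]
      omega
    obtain ⟨W'', Φ, hW'', hsub, hSF'', hag'⟩ := ih (insert c P)
      (A ∪ (RelCWComplex.map c.1 c.2) '' closedBall 0 1) W' Ψ' hcard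
      (Finset.insert_subset hc.1 hPF) (hA.union hcc) hW' hW'V
      (by
        intro c' hc'
        rw [Finset.mem_insert] at hc'
        rcases hc' with rfl | hc'
        · exact (RelCWComplex.openCell_subset_closedCell _ _).trans subset_union_right
        · exact (hPA c' hc').trans subset_union_left)
      (by
        intro c' hc' hc'P
        rw [Finset.mem_insert, not_or] at hc'P
        have hle : c.1 ≤ c'.1 := hmin c' (Finset.mem_sdiff.2 ⟨hc', hc'P.2⟩)
        rw [Set.disjoint_union_right]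
        refine ⟨hdis c' hc' hc'P.2, ?_⟩
        have hcl : (RelCWComplex.map c.1 c.2) '' closedBall 0 1 =
            RelCWComplex.cellFrontier c.1 c.2 ∪ RelCWComplex.openCell c.1 c.2 :=
          (RelCWComplex.cellFrontier_union_openCell_eq_closedCell c.1 c.2).symm
        rw [hcl, Set.disjoint_union_right]
        refine ⟨?_, ?_⟩
        · rw [Set.disjoint_left]
          intro y hy hy'
          have := dim_lt hy' hy
          omega
        · exact RelCWComplex.disjoint_openCell_of_ne hc'P.1)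
      hSF'
    have hsub' : A ∩ W ⊆ (A ∪ (RelCWComplex.map c.1 c.2) '' closedBall 0 1) ∩ W' :=
      fun y hy => ⟨Or.inl hy.1, hAW hy⟩
    exact ⟨W'', Φ, hW'', hsub'.trans hsub, hSF'', fun y hy s hs => (hag' y (hsub' hy) s hs).trans (hag y hy s hs)⟩

theorem hIND : StEXT → StIND := by
  intro hEXT Y _ _ D _ V F P A W ε Ψ hV hcov hPF hA hW hWV hPA hdis hSF
  exact aux hEXT hV hcov _ P A W Ψ rfl hPF hA hW hWV hPA hdis hSF

end Pool.Agent.Helper56.CWS
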